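import Pool.Agent.U663.DS.GridMain

/-!
# The exceptions to Vojta's inequality for grids come from the nodes

`K` is a number field of degree `d`, `X = P¹ × P¹`, `D` the grid `{α_1, ..., α_q} × P¹ ∪ P¹ × {β_1, ..., β_r}`,
`S` a finite set of primes, `0 < κ < 1/3`, `c` real, `G = 0` any curve. Consider the points `(P, Q)` of
`X(K)` off `D` and off the curve, with `h(P), h(Q) ≤ log B` and
`N_S^(1)(D, (P, Q)) ≤ (q - κ) h(P) + (r - κ) h(Q) + c`. For all of them except a proportion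
`exp (- η (log B / log log B)^(2/3))`

* the defect `q h(P) + r h(Q) - N_S^(1)(D, (P, Q))` is `κ (h(P) + h(Q)) + o(log B)`, and
* each of the `q r` nodes `(α_i, β_j)` of `D` contributes to it the amount
  `(κ / (q r)) (h(P) + h(Q)) + o(log B)`: this is the sum of the numbers
  `λ_v(α_i, P) + λ_v(β_j, Q) - log N(v) / d` for the primes `v` outside `S` at which `(P, Q)` reduces to
  the node.

So these exceptions are due to the primes at which the point goes through a node of `D`, all nodes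
contribute equally, and the primes at which the point meets `D` elsewhere, or is close to `D` at the
places of `S` or at infinity, contribute only `o(log B)`.
-/

set_option autoImplicit false

open NumberField IsDedekindDomain Filter Topology

namespace Pool.Agent.Results.MP_9ec3f0_nt.DefectAtTheNodes

section defs

variable {K : Type} [Field K] [NumberField K]

/-- the absolute logarithmic height of a point (`Height.logHeight` is relative to `K`) -/
noncomputable def height (P : Projectivization K (Fin 2 → K)) : ℝ :=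
  Height.logHeight P.rep / (Module.finrank ℚ K : ℝ)

/-- `P` is none of the points `α_i` -/
def Off {q : ℕ} (α : Fin q → Fin 2 → K) (P : Projectivization K (Fin 2 → K)) : Prop :=
  ∀ i, P.rep 0 * α i 1 - P.rep 1 * α i 0 ≠ 0

/-- the local height for the point `a` at the prime `v`: `log (max |P_i|_v max |a_i|_v / |P_0 a_1 - P_1 a_0|_v)`,
divided by `[K : ℚ]` -/
noncomputable def localHeight (v : HeightOneSpectrum (𝓞 K)) (a : Fin 2 → K)
    (P : Projectivization K (Fin 2 → K)) : ℝ :=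
  Real.log (max (FinitePlace.mk v (P.rep 0)) (FinitePlace.mk v (P.rep 1)) *
    max (FinitePlace.mk v (a 0)) (FinitePlace.mk v (a 1)) /
      FinitePlace.mk v (P.rep 0 * a 1 - P.rep 1 * a 0)) / (Module.finrank ℚ K : ℝ)

/-- `log N(v) / [K : ℚ]` -/
noncomputable def size (v : HeightOneSpectrum (𝓞 K)) : ℝ :=
  Real.log (Ideal.absNorm v.asIdeal : ℝ) / (Module.finrank ℚ K : ℝ)

/-- the truncated counting function `N_S^(1)(D, (P, Q))` of the grid
`D = {α_1, ..., α_q} × P¹ ∪ P¹ × {β_1, ..., β_r}` -/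
noncomputable def truncated (S : Finset (HeightOneSpectrum (𝓞 K))) {q r : ℕ} (α : Fin q → Fin 2 → K)
    (β : Fin r → Fin 2 → K) (P Q : Projectivization K (Fin 2 → K)) : ℝ :=
  ∑ᶠ (v : HeightOneSpectrum (𝓞 K)) (_ : v ∉ S),
    min (size v) (∑ i, localHeight v (α i) P + ∑ j, localHeight v (β j) Q)

/-- the contribution of the node `(a, b)` to the defect: the sum of
`λ_v(a, P) + λ_v(b, Q) - log N(v) / d` over the primes `v` outside `S` with `λ_v(a, P) > 0` and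
`λ_v(b, Q) > 0` -/
noncomputable def nodal (S : Finset (HeightOneSpectrum (𝓞 K))) (a b : Fin 2 → K)
    (P Q : Projectivization K (Fin 2 → K)) : ℝ :=
  ∑ᶠ (v : HeightOneSpectrum (𝓞 K)) (_ : v ∉ S ∧ 0 < localHeight v a P ∧ 0 < localHeight v b Q),
    (localHeight v a P + localHeight v b Q - size v)

/-- the value of a bihomogeneous form at `(P, Q)` (in the coordinates `P.rep`, `Q.rep`) -/
noncomputable def value (G : MvPolynomial (Fin 4) K) (P Q : Projectivization K (Fin 2 → K)) : K :=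
  MvPolynomial.eval ![P.rep 0, P.rep 1, Q.rep 0, Q.rep 1] G

/-- `G(x_0, x_1, y_0, y_1)` is homogeneous in `x` and homogeneous in `y` -/
def Bihomogeneous (G : MvPolynomial (Fin 4) K) : Prop :=
  ∃ a b : ℕ, ∀ m ∈ G.support, m 0 + m 1 = a ∧ m 2 + m 3 = b

/-- the points `(P, Q)` off the grid and off the curve `G = 0`, of heights at most `B`, with
`N_S^(1)(D, (P, Q)) ≤ (q - κ) h(P) + (r - κ) h(Q) + c` -/
def Points (S : Finset (HeightOneSpectrum (𝓞 K))) {q r : ℕ} (α : Fin q → Fin 2 → K)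
    (β : Fin r → Fin 2 → K) (G : MvPolynomial (Fin 4) K) (κ c B : ℝ) :
    Set (Projectivization K (Fin 2 → K) × Projectivization K (Fin 2 → K)) :=
  {p | Off α p.1 ∧ Off β p.2 ∧ value G p.1 p.2 ≠ 0 ∧ Real.exp (height p.1) ≤ B ∧
    Real.exp (height p.2) ≤ B ∧
    truncated S α β p.1 p.2 ≤ ((q : ℝ) - κ) * height p.1 + ((r : ℝ) - κ) * height p.2 + c}

/-- the point `(P, Q)` is typical, up to `ε log B` -/
structure Typical (S : Finset (HeightOneSpectrum (𝓞 K))) {q r : ℕ} (α : Fin q → Fin 2 → K)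
    (β : Fin r → Fin 2 → K) (κ ε B : ℝ) (P Q : Projectivization K (Fin 2 → K)) : Prop where
  /-- the defect is `κ (h(P) + h(Q))` -/
  defect : |(q * height P + r * height Q - truncated S α β P Q) - κ * (height P + height Q)| ≤
    ε * Real.log B
  /-- each node contributes `κ / (q r) (h(P) + h(Q))` to it -/
  nodes : ∀ i j, |nodal S (α i) (β j) P Q - κ / ((q * r : ℕ) : ℝ) * (height P + height Q)| ≤
    ε * Real.log B

/-- the points of `Points S α β G κ c B` which are not typical -/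
def Atypical (S : Finset (HeightOneSpectrum (𝓞 K))) {q r : ℕ} (α : Fin q → Fin 2 → K)
    (β : Fin r → Fin 2 → K) (G : MvPolynomial (Fin 4) K) (κ c ε B : ℝ) :
    Set (Projectivization K (Fin 2 → K) × Projectivization K (Fin 2 → K)) :=
  {p | p ∈ Points S α β G κ c B ∧ ¬ Typical S α β κ ε B p.1 p.2}

end defs

open Pool.Agent.N906.KG Pool.Agent.U663.DS Pool.Agent.H691R3 Pool.Agent.W223.AK
open Pool.Agent.N906.NT (cst)
open Pool.Agent.N170.KG (pr al_pr ht_rep of_rep rep_eq_of rep_inf exp_hh pts pts_finite pts_count)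

variable {K : Type} [Field K] [NumberField K] {q r : ℕ}

theorem deg_pos : (0 : ℝ) < Module.finrank ℚ K := by
  exact_mod_cast (Module.finrank_pos (R := ℚ) (M := K))

theorem deg_one : (1 : ℝ) ≤ Module.finrank ℚ K := by
  exact_mod_cast Nat.one_le_iff_ne_zero.2 (Module.finrank_pos (R := ℚ) (M := K)).ne'

theorem truncated_eq (S : Finset (Pr K)) (α : Fin q → Fin 2 → K) (β : Fin r → Fin 2 → K)
    (P Q : Projectivization K (Fin 2 → K)) :
    truncated S α β P Q = cntT (S : Set (Pr K)) α β P Q := rfl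

theorem nodal_eq (S : Finset (Pr K)) (a b : Fin 2 → K) (P Q : Projectivization K (Fin 2 → K)) :
    nodal S a b P Q = nod (S : Set (Pr K)) a b P Q := rfl

theorem points_sub {S : Finset (Pr K)} {α : Fin q → Fin 2 → K} {β : Fin r → Fin 2 → K}
    {G : MvPolynomial (Fin 4) K} {κ c L : ℝ} : Points S α β G κ c (Real.exp L) ⊆
      pts K (Module.finrank ℚ K * L) ×ˢ pts K (Module.finrank ℚ K * L) := by
  rintro p ⟨-, -, -, h1, h2, -⟩
  exact ⟨exp_hh.1 h1, exp_hh.1 h2⟩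

theorem points_finite (S : Finset (Pr K)) (α : Fin q → Fin 2 → K) (β : Fin r → Fin 2 → K)
    (G : MvPolynomial (Fin 4) K) (κ c B : ℝ) : (Points S α β G κ c B).Finite := by
  rcases le_or_gt B 0 with hB | hB
  · refine Set.Finite.subset Set.finite_empty ?_
    rintro p ⟨-, -, -, h1, -, -⟩
    exact absurd (Real.exp_pos (height p.1)) (not_lt.2 (h1.trans hB))
  · rw [← Real.exp_log hB]
    exact ((pts_finite K _).prod (pts_finite K _)).subset points_sub

/-- the upper bound for the points which are not typical -/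
theorem atypical_le (hq : 1 ≤ q) (hr' : 1 ≤ r) (S : Finset (Pr K)) {α : Fin q → Fin 2 → K}
    {β : Fin r → Fin 2 → K} (G : MvPolynomial (Fin 4) K) (hα0 : ∀ i, α i ≠ 0)
    (hβ0 : ∀ j, β j ≠ 0) (hα : ∀ i j, i ≠ j → α i 0 * α j 1 - α i 1 * α j 0 ≠ 0)
    (hβ : ∀ i j, i ≠ j → β i 0 * β j 1 - β i 1 * β j 0 ≠ 0) {κ c ε : ℝ} (hκ : 0 < κ)
    (hκ1 : κ < 1 / 3) (hε : 0 < ε) :
    ∃ η : ℝ, 0 < η ∧ η ≤ 1 ∧ ∃ C : ℝ, 0 < C ∧ ∃ X₀ : ℝ, ∀ X : ℝ, X₀ ≤ X →
      ((Atypical S α β G κ c ε (Real.exp (X / Module.finrank ℚ K))).ncard : ℝ) ≤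
        Real.exp ((4 - 2 * κ) * X + (1 - η) * Wg (cst 2 (q * r)) (2 * κ) (2 / 3) X) * C := by
  classical
  obtain ⟨d, hd⟩ : ∃ d : ℝ, d = Module.finrank ℚ K := ⟨_, rfl⟩
  have hd0 : 0 < d := by rw [hd]; exact deg_pos
  have hqr : 0 < q * r := Nat.mul_pos hq hr'
  have hcst : 0 < cst 2 (q * r) := Pool.Agent.N755.NT.cst_pos (by norm_num) hqr
  have hA := al_pr hα0 hα
  have hB := al_pr hβ0 hβ
  obtain ⟨⟨S₁, hS₁⟩, hA2⟩ := (basq_all K) q (pr α) hq hA
  obtain ⟨⟨S₂, hS₂⟩, hB2⟩ := (basq_all K) r (pr β) hr' hB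
  obtain ⟨S', hS'⟩ : ∃ S' : Finset (Pr K), S' = S₁ ∪ (S₂ ∪ S) := ⟨_, rfl⟩
  have hTS : (S : Set (Pr K)) ⊆ ↑S' := by
    rw [hS']
    intro v hv
    rw [Finset.coe_union, Finset.coe_union]
    exact Or.inr (Or.inr hv)
  have hGα : Gd S' (pr α) := hS₁ S' (by rw [hS']; exact Finset.subset_union_left)
  have hGβ : Gd S' (pr β) := hS₂ S' (by
    rw [hS']
    exact Finset.subset_union_left.trans Finset.subset_union_right)
  obtain ⟨C₁, hC₁, hA3⟩ := hA2 _ hGα
  obtain ⟨C₂, hC₂, hB3⟩ := hB2 _ hGβ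
  obtain ⟨Λ, hΛ⟩ : ∃ Λ : ℝ, Λ = ∑ v ∈ S', Real.log (Nv v) := ⟨_, rfl⟩
  have hΛ0 : 0 ≤ Λ := by rw [hΛ]; exact Finset.sum_nonneg fun v _ => (log_Nv_pos v).le
  obtain ⟨Lo, hLo⟩ : ∃ Lo : ℝ, Lo = ∑ v ∈ Spl S', loss v := ⟨_, rfl⟩
  have hLo0 : 0 ≤ Lo := by rw [hLo]; exact Finset.sum_nonneg fun v _ => loss_nonneg v
  obtain ⟨C₅, hC₅⟩ : ∃ C₅ : ℝ, C₅ = C₁ + C₂ + (q + r) * Lo := ⟨_, rfl⟩
  have hC₅0 : 0 ≤ C₅ := by rw [hC₅]; positivity
  obtain ⟨c₀, hc₀⟩ : ∃ c₀ : ℝ, c₀ = d * |c| := ⟨_, rfl⟩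
  have hc₀0 : 0 ≤ c₀ := by rw [hc₀]; positivity
  obtain ⟨ε', hε'⟩ : ∃ ε' : ℝ, ε' = min ((1 / 3 - κ) / 2) (ε / (2 * ((q * r + 2 : ℕ) : ℝ))) :=
    ⟨_, rfl⟩
  have hN2 : (2 : ℝ) ≤ ((q * r + 2 : ℕ) : ℝ) := by
    push_cast
    have : (0 : ℝ) ≤ (q : ℝ) * r := by positivity
    linarith
  have hε'0 : 0 < ε' := by
    rw [hε']
    exact lt_min (by linarith) (by positivity)
  have hε'1 : κ + ε' < 1 / 3 := by
    have : ε' ≤ (1 / 3 - κ) / 2 := by rw [hε']; exact min_le_left _ _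
    linarith
  have hε'2 : ((q * r + 2 : ℕ) : ℝ) * ε' ≤ ε / 2 := by
    have : ε' ≤ ε / (2 * ((q * r + 2 : ℕ) : ℝ)) := by rw [hε']; exact min_le_right _ _
    calc ((q * r + 2 : ℕ) : ℝ) * ε' ≤ ((q * r + 2 : ℕ) : ℝ) * (ε / (2 * ((q * r + 2 : ℕ) : ℝ))) :=
          mul_le_mul_of_nonneg_left this (by positivity)
      _ = ε / 2 := by field_simp
  -- the families of the exceptional points
  obtain ⟨X₁, hX₁, hup⟩ := (upg_all K) q r (pr α) (pr β) S' (κ + ε') 1 0 hq hr' hA hB hGα hGβ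
    (by linarith) hε'1 one_pos le_rfl
  have hf : ∀ p : Fin q × Fin r, ∃ η : ℝ, 0 < η ∧ η ≤ 1 ∧ ∃ X₀ : ℝ, 1 < X₀ ∧
      ∀ (X : ℝ) (F : Finset (K × K)), X₀ ≤ X →
    (∀ x ∈ F, Of (pr α) x.1 ∧ Of (pr β) x.2 ∧ hr (aff x.1) ≤ X ∧ hr (aff x.2) ≤ X ∧
      ∃ P Q, IsP S' (pr α) x.1 P ∧ IsP S' (pr β) x.2 Q ∧
        tr (ap P Q) ≤ ((q : ℝ) - κ) * hr (aff x.1) + ((r : ℝ) - κ) * hr (aff x.2) + c₀ ∧
        (gl (prt (ap P Q) (node q r p.1 p.2)) ≤ (1 / ((q * r : ℕ) : ℝ) - ε') * (2 * κ * X) ∨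
          tl (ap P Q) ≤ q * hr (aff x.1) + r * hr (aff x.2) - ε' * X)) →
    (F.card : ℝ) ≤ Real.exp ((4 - 2 * κ) * X +
      (1 - η) * (cst 2 (q * r) * (2 * κ * X / Real.log X) ^ ((2 : ℝ) / 3))) := fun p =>
    fewG K hq hr' hA hB hGα hGβ hκ hκ1 hε'0 hc₀0 p.1 p.2
  choose η' hη' hη'1 X₂ hX₂ hfew using hf
  have hne : (Finset.univ : Finset (Fin q × Fin r)).Nonempty := ⟨(⟨0, hq⟩, ⟨0, hr'⟩), Finset.mem_univ _⟩
  obtain ⟨η, hη⟩ : ∃ η : ℝ, η = Finset.univ.inf' hne η' := ⟨_, rfl⟩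
  have hη0 : 0 < η := by
    rw [hη, Finset.lt_inf'_iff]
    exact fun p _ => hη' p
  have hηp : ∀ p, η ≤ η' p := fun p => by rw [hη]; exact Finset.inf'_le _ (Finset.mem_univ p)
  have hη1 : η ≤ 1 := (hηp _).trans (hη'1 (⟨0, hq⟩, ⟨0, hr'⟩))
  obtain ⟨C, hC, hpts⟩ := pts_count K
  have ev := (Wg_small (c := 2 * cst 2 (q * r)) (k := 2 * (κ + ε')) (ρ := 2 / 3)
    (show 0 < 2 * cst 2 (q * r) by positivity)
    (show 0 < 2 * (κ + ε') by positivity) (by norm_num) (by norm_num)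
    (show 0 < 2 * ε' by positivity)).and
    ((eventually_ge_atTop X₁).and ((eventually_ge_atTop (Finset.univ.sup' hne X₂)).and
      ((eventually_ge_atTop (2 * (2 * C₅ + Λ + c₀) / ε)).and (eventually_ge_atTop (1 : ℝ)))))
  obtain ⟨X₀, hX₀⟩ := eventually_atTop.1 ev
  refine ⟨η, hη0, hη1, 1 + q * r + 2 * C, by positivity, max X₀ 2, fun X hX => ?_⟩
  obtain ⟨hsm, k1, k2, k3, k4⟩ := hX₀ X ((le_max_left _ _).trans hX)
  have hX2 : 2 ≤ X := (le_max_right _ _).trans hX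
  have hX0 : 0 ≤ X := by linarith
  have hlX : 0 < Real.log X := Real.log_pos (by linarith)
  rw [div_le_iff₀ hε] at k3
  obtain ⟨L, hL⟩ : ∃ L : ℝ, L = X / d := ⟨_, rfl⟩
  have hXL : X = d * L := by rw [hL]; field_simp
  rw [← hd, ← hL]
  obtain ⟨W, hW⟩ : ∃ W : ℝ, W = Wg (cst 2 (q * r)) (2 * κ) (2 / 3) X := ⟨_, rfl⟩
  have hW0 : 0 ≤ W := by
    rw [hW]
    unfold Wg
    positivity
  rw [← hW]
  obtain ⟨V, hV⟩ : ∃ V : ℝ, V = Real.exp ((4 - 2 * κ) * X + (1 - η) * W) := ⟨_, rfl⟩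
  have hV0 : 0 < V := by rw [hV]; positivity
  have hηW : 0 ≤ (1 - η) * W := mul_nonneg (by linarith) hW0
  have hfin : (Atypical S α β G κ c ε (Real.exp L)).Finite :=
    (points_finite S α β G κ c _).subset fun x hx => hx.1
  obtain ⟨U, hU⟩ : ∃ U : Finset (Projectivization K (Fin 2 → K) × Projectivization K (Fin 2 → K)),
    U = hfin.toFinset := ⟨_, rfl⟩
  have hUm : ∀ p, p ∈ U ↔ p ∈ Atypical S α β G κ c ε (Real.exp L) := fun p => by
    rw [hU, Set.Finite.mem_toFinset]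
  have hcard : (Atypical S α β G κ c ε (Real.exp L)).ncard = U.card := by
    rw [hU, Set.ncard_eq_toFinset_card _ hfin]
  rw [hcard, ← hV]
  have hUh : ∀ p ∈ U, p.1 ∈ pts K X ∧ p.2 ∈ pts K X := fun p hp => by
    have := points_sub ((hUm p).1 hp).1
    rw [← hd, ← hXL] at this
    exact this
  obtain ⟨U₁, hU₁⟩ : ∃ U₁, U₁ = U.filter (fun p => p.1.rep 1 ≠ 0 ∧ p.2.rep 1 ≠ 0) := ⟨_, rfl⟩
  obtain ⟨U₂, hU₂⟩ : ∃ U₂, U₂ = U.filter (fun p => p.1.rep 1 = 0) := ⟨_, rfl⟩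
  obtain ⟨U₃, hU₃⟩ : ∃ U₃, U₃ = U.filter (fun p => p.2.rep 1 = 0) := ⟨_, rfl⟩
  have hsplit : U.card ≤ U₁.card + (U₂.card + U₃.card) := by
    have h : U ⊆ U₁ ∪ (U₂ ∪ U₃) := by
      intro p hp
      rw [Finset.mem_union, Finset.mem_union, hU₁, hU₂, hU₃, Finset.mem_filter, Finset.mem_filter,
        Finset.mem_filter]
      by_cases g1 : p.1.rep 1 = 0
      · exact Or.inr (Or.inl ⟨hp, g1⟩)
      · by_cases g2 : p.2.rep 1 = 0
        · exact Or.inr (Or.inr ⟨hp, g2⟩)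
        · exact Or.inl ⟨hp, g1, g2⟩
    exact (Finset.card_le_card h).trans ((Finset.card_union_le _ _).trans
      (Nat.add_le_add_left (Finset.card_union_le _ _) _))
  have hV2 : Real.exp (2 * X) ≤ V := by
    rw [hV]
    apply Real.exp_le_exp.2
    nlinarith
  have hc2 : (U₂.card : ℝ) ≤ C * V := by
    refine le_trans ?_ (mul_le_mul_of_nonneg_left hV2 hC.le)
    refine le_trans ?_ (hpts X hX0).2
    have h : U₂.card ≤ (pts K X).ncard := by
      rw [← Finset.card_image_of_injOn (s := U₂) (f := Prod.snd), ← Set.ncard_coe_finset]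
      · refine Set.ncard_le_ncard ?_ (pts_finite K X)
        intro Q hQ
        obtain ⟨p, hp, rfl⟩ := Finset.mem_image.1 (Finset.mem_coe.1 hQ)
        rw [hU₂] at hp
        exact (hUh p (Finset.mem_filter.1 hp).1).2
      · intro p hp p' hp' e
        rw [hU₂] at hp hp'
        exact Prod.ext (rep_inf (Finset.mem_filter.1 (Finset.mem_coe.1 hp)).2
          (Finset.mem_filter.1 (Finset.mem_coe.1 hp')).2) e
    exact_mod_cast h
  have hc3 : (U₃.card : ℝ) ≤ C * V := by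
    refine le_trans ?_ (mul_le_mul_of_nonneg_left hV2 hC.le)
    refine le_trans ?_ (hpts X hX0).2
    have h : U₃.card ≤ (pts K X).ncard := by
      rw [← Finset.card_image_of_injOn (s := U₃) (f := Prod.fst), ← Set.ncard_coe_finset]
      · refine Set.ncard_le_ncard ?_ (pts_finite K X)
        intro Q hQ
        obtain ⟨p, hp, rfl⟩ := Finset.mem_image.1 (Finset.mem_coe.1 hQ)
        rw [hU₃] at hp
        exact (hUh p (Finset.mem_filter.1 hp).1).1
      · intro p hp p' hp' e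
        rw [hU₃] at hp hp'
        exact Prod.ext e (rep_inf (Finset.mem_filter.1 (Finset.mem_coe.1 hp)).2
          (Finset.mem_filter.1 (Finset.mem_coe.1 hp')).2)
    exact_mod_cast h
  -- the affine points
  obtain ⟨F, hF⟩ : ∃ F : Finset (K × K), F = U₁.image
    (fun p => (p.1.rep 0 / p.1.rep 1, p.2.rep 0 / p.2.rep 1)) := ⟨_, rfl⟩
  have hFc : U₁.card = F.card := by
    rw [hF, Finset.card_image_of_injOn]
    intro p hp p' hp' e
    rw [hU₁] at hp hp'
    obtain ⟨-, g1, g2⟩ := Finset.mem_filter.1 (Finset.mem_coe.1 hp)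
    obtain ⟨-, g3, g4⟩ := Finset.mem_filter.1 (Finset.mem_coe.1 hp')
    have e1 := congrArg Prod.fst e
    have e2 := congrArg Prod.snd e
    exact Prod.ext (rep_eq_of g1 g3 e1) (rep_eq_of g2 g4 e2)
  -- the two kinds of exceptional points
  have hFm : ∀ x ∈ F, Of (pr α) x.1 ∧ Of (pr β) x.2 ∧ hr (aff x.1) ≤ X ∧ hr (aff x.2) ≤ X ∧
      ∃ P Q, IsP S' (pr α) x.1 P ∧ IsP S' (pr β) x.2 Q ∧
        tr (ap P Q) ≤ ((q : ℝ) - κ) * hr (aff x.1) + ((r : ℝ) - κ) * hr (aff x.2) + c₀ ∧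
        (tr (ap P Q) ≤ ((q : ℝ) - (κ + ε')) * hr (aff x.1) +
          ((r : ℝ) - (κ + ε')) * hr (aff x.2) + 0 ∨ ∃ n : Fin q × Fin r,
          (gl (prt (ap P Q) (node q r n.1 n.2)) ≤ (1 / ((q * r : ℕ) : ℝ) - ε') * (2 * κ * X) ∨
            tl (ap P Q) ≤ q * hr (aff x.1) + r * hr (aff x.2) - ε' * X)) := by
    intro x hx
    rw [hF] at hx
    obtain ⟨p, hp, rfl⟩ := Finset.mem_image.1 hx
    rw [hU₁, Finset.mem_filter] at hp
    obtain ⟨g0, g1, g2⟩ := hp
    obtain ⟨m1', m2'⟩ := hUh p g0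
    obtain ⟨⟨n1, n2, -, -, -, n3⟩, n4⟩ := (hUm p).1 g0
    have o1 := of_rep g1 n1
    have o2 := of_rep g2 n2
    obtain ⟨b1, b2, b3, -⟩ := hA3 _ o1
    obtain ⟨b1', b2', b3', -⟩ := hB3 _ o2
    obtain ⟨P, hP⟩ := b1
    obtain ⟨Q, hQ⟩ := b1'
    obtain ⟨b4, b5, -⟩ := b2 P hP
    obtain ⟨b4', b5', -⟩ := b2' Q hQ
    obtain ⟨hx, hhx⟩ : ∃ hx : ℝ, hx = hr (aff (p.1.rep 0 / p.1.rep 1)) := ⟨_, rfl⟩
    obtain ⟨hy, hhy⟩ : ∃ hy : ℝ, hy = hr (aff (p.2.rep 0 / p.2.rep 1)) := ⟨_, rfl⟩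
    have e1 : d * height p.1 = hx := by
      rw [hhx, ← ht_rep, hd]
      exact mul_div_cancel₀ _ deg_pos.ne'
    have e2 : d * height p.2 = hy := by
      rw [hhy, ← ht_rep, hd]
      exact mul_div_cancel₀ _ deg_pos.ne'
    have e3 : hx ≤ X := by rw [hhx, ← ht_rep]; exact m1'
    have e4 : hy ≤ X := by rw [hhy, ← ht_rep]; exact m2'
    obtain ⟨t1, t2⟩ := cntT_bounds hTS hα0 hβ0 g1 g2 n1 n2 hP hQ
    rw [← hd, ← truncated_eq] at t1 t2
    have t3 := mul_le_mul_of_nonneg_left n3 hd0.le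
    have t4 : d * (((q : ℝ) - κ) * height p.1 + ((r : ℝ) - κ) * height p.2 + c) =
        ((q : ℝ) - κ) * hx + ((r : ℝ) - κ) * hy + d * c := by
      rw [← e1, ← e2]; ring
    have t5 : d * c ≤ c₀ := by
      rw [hc₀]
      exact mul_le_mul_of_nonneg_left (le_abs_self c) hd0.le
    have t6 : d * truncated S α β p.1 p.2 ≤ ((q : ℝ) - κ) * hx + ((r : ℝ) - κ) * hy + c₀ := by
      linarith
    -- the closeness
    have cl1 : ∀ i, ∑ v ∈ S', (Module.finrank ℚ K : ℝ) * lv v (α i) p.1 ≤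
        (q * hx - tl P) + C₁ + q * Lo := by
      intro i
      rw [hhx, hLo]
      exact close_le g1 b5 (fun v hv => (b3 v hv).1) i
    have cl2 : ∀ j, ∑ v ∈ S', (Module.finrank ℚ K : ℝ) * lv v (β j) p.2 ≤
        (r * hy - tl Q) + C₂ + r * Lo := by
      intro j
      rw [hhy, hLo]
      exact close_le g2 b5' (fun v hv => (b3' v hv).1) j
    have cl3 : 0 ≤ (q * hx - tl P) + C₁ + q * Lo :=
      le_trans (Finset.sum_nonneg fun v _ => mul_nonneg (by rw [← hd]; exact hd0.le)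
        (Pool.Agent.U663.SD.lv_nonneg hα0 g1 n1 ⟨0, hq⟩ v)) (cl1 ⟨0, hq⟩)
    have cl4 : 0 ≤ (r * hy - tl Q) + C₂ + r * Lo :=
      le_trans (Finset.sum_nonneg fun v _ => mul_nonneg (by rw [← hd]; exact hd0.le)
        (Pool.Agent.U663.SD.lv_nonneg hβ0 g2 n2 ⟨0, hr'⟩ v)) (cl2 ⟨0, hr'⟩)
    have htl : tl (ap P Q) = tl P + tl Q := Pool.Agent.N645.KG.tl_ap P Q
    rw [← hhx, ← hhy]
    refine ⟨o1, o2, e3, e4, P, Q, hP, hQ, t1.trans t6, ?_⟩
    by_contra hno
    push Not at hno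
    obtain ⟨w1, w2⟩ := hno
    rw [add_zero] at w1
    obtain ⟨z1, z2⟩ := core hq hr' (hx := hx) (hy := hy) (X := X) (tl := tl (ap P Q))
      (tr := tr (ap P Q)) (dt := d * truncated S α β p.1 p.2) (Λ := Λ) (C₅ := C₅) (c₀ := c₀)
      (κ := κ) (ε' := ε') (g := fun n => gl (prt (ap P Q) (node q r n.1 n.2)))
      (nd := fun n => d * nodal S (α n.1) (β n.2) p.1 p.2) e3 e4 hX0 hκ hκ1 hε'0 hc₀0 hΛ0 hC₅0
      t1 t6 (by
        rw [htl, hC₅]
        linarith) (sum_nodes _) (by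
        intro n
        obtain ⟨v1, v2⟩ := nod_bounds hTS hα0 hβ0 g1 g2 n1 n2 hP hQ b4 b4' n.1 n.2
        rw [← hd, ← nodal_eq] at v1 v2
        rw [← hΛ] at v1
        refine ⟨v1, v2.trans ?_⟩
        have v3 := cl1 n.1
        have v4 := cl2 n.2
        rw [← hd] at v3 v4
        have v5 : ∑ v ∈ S', d * (lv v (α n.1) p.1 + lv v (β n.2) p.2) =
            ∑ v ∈ S', d * lv v (α n.1) p.1 + ∑ v ∈ S', d * lv v (β n.2) p.2 := by
          rw [← Finset.sum_add_distrib]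
          exact Finset.sum_congr rfl fun v _ => by ring
        rw [v5, htl, hC₅]
        linarith) w1 (fun n => (w2 n).1) (w2 (⟨0, hq⟩, ⟨0, hr'⟩)).2
    apply n4
    have hεX : ((q * r + 2 : ℕ) : ℝ) * ε' * X ≤ ε / 2 * X := mul_le_mul_of_nonneg_right hε'2 hX0
    refine ⟨?_, fun i j => ?_⟩
    · refine le_of_mul_le_mul_left ?_ hd0
      rw [Real.log_exp]
      have y1 : d * |(q * height p.1 + r * height p.2 - truncated S α β p.1 p.2) -
          κ * (height p.1 + height p.2)| =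
          |(q * hx + r * hy - d * truncated S α β p.1 p.2) - κ * (hx + hy)| := by
        rw [← abs_of_pos hd0, ← abs_mul, abs_of_pos hd0, ← e1, ← e2]
        congr 1
        ring
      have y2 : d * (ε * L) = ε * X := by rw [hXL]; ring
      rw [y1, y2]
      refine z1.trans ?_
      have y3 : 2 * ε' * X ≤ ((q * r + 2 : ℕ) : ℝ) * ε' * X := by
        apply mul_le_mul_of_nonneg_right _ hX0
        exact mul_le_mul_of_nonneg_right hN2 hε'0.le
      linarith
    · refine le_of_mul_le_mul_left ?_ hd0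
      rw [Real.log_exp]
      have y1 : d * |nodal S (α i) (β j) p.1 p.2 -
          κ / ((q * r : ℕ) : ℝ) * (height p.1 + height p.2)| =
          |d * nodal S (α i) (β j) p.1 p.2 - κ / ((q * r : ℕ) : ℝ) * (hx + hy)| := by
        rw [← abs_of_pos hd0, ← abs_mul, abs_of_pos hd0, ← e1, ← e2]
        congr 1
        ring
      have y2 : d * (ε * L) = ε * X := by rw [hXL]; ring
      rw [y1, y2]
      refine (z2 (i, j)).trans ?_
      linarith
  -- the count
  obtain ⟨Fa, hFa⟩ : ∃ Fa : Finset (K × K), Fa = F.filter (fun x => ∃ P Q, IsP S' (pr α) x.1 P ∧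
      IsP S' (pr β) x.2 Q ∧ tr (ap P Q) ≤ ((q : ℝ) - (κ + ε')) * hr (aff x.1) +
          ((r : ℝ) - (κ + ε')) * hr (aff x.2) + 0) := ⟨_, rfl⟩
  obtain ⟨Fb, hFb⟩ : ∃ Fb : Fin q × Fin r → Finset (K × K), Fb = fun n => F.filter (fun x =>
      ∃ P Q, IsP S' (pr α) x.1 P ∧ IsP S' (pr β) x.2 Q ∧
        tr (ap P Q) ≤ ((q : ℝ) - κ) * hr (aff x.1) + ((r : ℝ) - κ) * hr (aff x.2) + c₀ ∧
        (gl (prt (ap P Q) (node q r n.1 n.2)) ≤ (1 / ((q * r : ℕ) : ℝ) - ε') * (2 * κ * X) ∨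
            tl (ap P Q) ≤ q * hr (aff x.1) + r * hr (aff x.2) - ε' * X)) := ⟨_, rfl⟩
  have hcov : F ⊆ Fa ∪ Finset.univ.biUnion Fb := by
    intro x hx
    obtain ⟨-, -, -, -, P, Q, hP, hQ, h5, h6⟩ := hFm x hx
    rw [Finset.mem_union]
    rcases h6 with h6 | ⟨n, h6⟩
    · left
      rw [hFa, Finset.mem_filter]
      exact ⟨hx, P, Q, hP, hQ, h6⟩
    · right
      rw [Finset.mem_biUnion]
      refine ⟨n, Finset.mem_univ _, ?_⟩
      rw [hFb, Finset.mem_filter]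
      exact ⟨hx, P, Q, hP, hQ, h5, h6⟩
  have hFac : (Fa.card : ℝ) ≤ V := by
    refine (hup X Fa k1 ?_).trans ?_
    · intro x hx
      rw [hFa, Finset.mem_filter] at hx
      obtain ⟨h1, h2, h3, h4, -⟩ := hFm x hx.1
      exact ⟨h1, h2, h3, h4, hx.2⟩
    · rw [hV]
      apply Real.exp_le_exp.2
      unfold Wg at hsm
      have : (1 + 1) * cst 2 (q * r) * (2 * (κ + ε') * X / Real.log X) ^ ((2 : ℝ) / 3) ≤
          2 * ε' * X := by
        have e : (1 + 1) * cst 2 (q * r) = 2 * cst 2 (q * r) := by ring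
        rw [e]
        exact hsm
      nlinarith
  have hFbc : ∀ n, ((Fb n).card : ℝ) ≤ V := by
    intro n
    have hXn : X₂ n ≤ X := (Finset.le_sup' X₂ (Finset.mem_univ n)).trans k2
    refine (hfew n X (Fb n) hXn ?_).trans ?_
    · intro x hx
      rw [hFb, Finset.mem_filter] at hx
      obtain ⟨h1, h2, h3, h4, -⟩ := hFm x hx.1
      exact ⟨h1, h2, h3, h4, hx.2⟩
    · rw [hV]
      apply Real.exp_le_exp.2
      have e1 : cst 2 (q * r) * (2 * κ * X / Real.log X) ^ ((2 : ℝ) / 3) = W := by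
        rw [hW]
        rfl
      rw [e1]
      have := mul_le_mul_of_nonneg_right (hηp n) hW0
      linarith
  have hFcard : (F.card : ℝ) ≤ (1 + q * r) * V := by
    have h1 : (F.card : ℝ) ≤ Fa.card + ∑ n : Fin q × Fin r, ((Fb n).card : ℝ) := by
      have := (Finset.card_le_card hcov).trans ((Finset.card_union_le _ _).trans
        (Nat.add_le_add_left Finset.card_biUnion_le _))
      exact_mod_cast this
    have h2 : ∑ n : Fin q × Fin r, ((Fb n).card : ℝ) ≤ q * r * V := by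
      refine (Finset.sum_le_sum fun n _ => hFbc n).trans (le_of_eq ?_)
      rw [Finset.sum_const, Finset.card_univ, Fintype.card_prod, Fintype.card_fin,
        Fintype.card_fin, nsmul_eq_mul]
      push_cast
      ring
    linarith
  have hs : (U.card : ℝ) ≤ U₁.card + (U₂.card + U₃.card) := by exact_mod_cast hsplit
  rw [hFc] at hs
  linarith

/-- **The defect comes from the nodes.** Let `K` be a number field, `S` a finite set of primes,
`q, r ≥ 1`, `α_1, ..., α_q` different points of `P¹(K)`, also `β_1, ..., β_r`, `0 < κ < 1/3`, `c` real,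
`ε > 0` and `G = 0` a curve on `P¹ × P¹`. There is `η > 0` such that for all large `B` at most
`exp (- η (log B / log log B)^(2/3)) V(B)` of the `V(B)` points `(P, Q)` off the grid and off the curve,
of heights at most `B`, with `N_S^(1)(D, (P, Q)) ≤ (q - κ) h(P) + (r - κ) h(Q) + c`, are not typical up
to `ε`; `V(B)` is finite. -/
theorem result : ∀ (K : Type) [Field K] [NumberField K] (q r : ℕ)
    (S : Finset (HeightOneSpectrum (𝓞 K))) (α : Fin q → Fin 2 → K) (β : Fin r → Fin 2 → K)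
    (G : MvPolynomial (Fin 4) K) (κ c ε : ℝ), 1 ≤ q → 1 ≤ r → (∀ i, α i ≠ 0) → (∀ j, β j ≠ 0) →
    (∀ i j, i ≠ j → α i 0 * α j 1 - α i 1 * α j 0 ≠ 0) →
    (∀ i j, i ≠ j → β i 0 * β j 1 - β i 1 * β j 0 ≠ 0) → G ≠ 0 → Bihomogeneous G →
    0 < κ → κ < 1 / 3 → 0 < ε →
    (∀ B : ℝ, (Points S α β G κ c B).Finite) ∧
    ∃ η : ℝ, 0 < η ∧ ∀ᶠ B : ℝ in atTop, ((Atypical S α β G κ c ε B).ncard : ℝ) ≤
      Real.exp (-(η * (Real.log B / Real.log (Real.log B)) ^ ((2 : ℝ) / 3))) *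
        ((Points S α β G κ c B).ncard : ℝ) := by
  classical
  intro K _ _ q r S α β G κ c ε hq hr' hα0 hβ0 hα hβ hG0 hG hκ hκ1 hε
  refine ⟨points_finite S α β G κ c, ?_⟩
  obtain ⟨d, hd⟩ : ∃ d : ℝ, d = Module.finrank ℚ K := ⟨_, rfl⟩
  have hd0 : 0 < d := by rw [hd]; exact deg_pos
  have hd1 : 1 ≤ d := by rw [hd]; exact deg_one
  have hqr : 0 < q * r := Nat.mul_pos hq hr'
  have hcst : 0 < cst 2 (q * r) := Pool.Agent.N755.NT.cst_pos (by norm_num) hqr
  have hk : 0 < 2 * κ := by positivity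
  have hρ : (0 : ℝ) < 2 / 3 := by norm_num
  obtain ⟨η, hη, hη1, C, hC, hM⟩ := atypical_le (K := K) (c := c) hq hr' S G hα0 hβ0 hα hβ hκ hκ1 hε
  -- the lower bound
  obtain ⟨C', hC'⟩ : ∃ C' : ℝ, ∀ ε₂ : ℝ, 0 < ε₂ → ε₂ < 1 → 0 ≤ C' ∧ ∃ X₀ : ℝ, ∀ X : ℝ, X₀ ≤ X →
      Real.exp ((4 - 2 * κ) * X + (1 - ε₂) * Wg (cst 2 (q * r)) (2 * κ) (2 / 3) X) ≤
        ((Points S α β G κ c (Real.exp (X / Module.finrank ℚ K))).ncard : ℝ) +
          C' * Real.exp (2 * X) := by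
    obtain ⟨C₃, hC₃, hz⟩ := (Pool.Agent.N72.KG.zarg K) G hG0 hG
    refine ⟨C₃, fun ε₂ h1 h2 => ⟨hC₃.le, ?_⟩⟩
    have hA := al_pr hα0 hα
    have hB := al_pr hβ0 hβ
    obtain ⟨⟨S₁, hS₁⟩, -⟩ := (basq_all K) q (pr α) hq hA
    obtain ⟨⟨S₂, hS₂⟩, -⟩ := (basq_all K) r (pr β) hr' hB
    obtain ⟨S', hS'⟩ : ∃ S' : Finset (Pr K), S' = S₁ ∪ (S₂ ∪ S) := ⟨_, rfl⟩
    have hTS : (S : Set (Pr K)) ⊆ ↑S' := by
      rw [hS']
      intro v hv
      rw [Finset.coe_union, Finset.coe_union]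
      exact Or.inr (Or.inr hv)
    have hGα : Gd S' (pr α) := hS₁ S' (by rw [hS']; exact Finset.subset_union_left)
    have hGβ : Gd S' (pr β) := hS₂ S' (by
      rw [hS']
      exact Finset.subset_union_left.trans Finset.subset_union_right)
    have hC₀ : 0 ≤ ∑ v ∈ S', Real.log (Nv v) + d * |c| :=
      add_nonneg (Finset.sum_nonneg fun v _ => (log_Nv_pos v).le) (by positivity)
    obtain ⟨X₀, hX₀, hlo⟩ := (log_all K) q r (pr α) (pr β) S' κ ε₂
      (∑ v ∈ S', Real.log (Nv v) + d * |c|) hq hr' hA hB hGα hGβ hκ hκ1 h1 h2 hC₀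
    refine ⟨X₀, fun X hX => ?_⟩
    have hX0 : 0 ≤ X := by linarith
    obtain ⟨F, hF, hcard⟩ := hlo X hX
    have e0 : (1 - ε₂) * Wg (cst 2 (q * r)) (2 * κ) (2 / 3) X =
        (1 - ε₂) * cst 2 (q * r) * (2 * κ * X / Real.log X) ^ ((2 : ℝ) / 3) := by
      unfold Wg
      ring
    rw [e0]
    refine hcard.trans ?_
    obtain ⟨hZf, hZc⟩ := hz X hX0
    obtain ⟨L, hL⟩ : ∃ L : ℝ, L = X / d := ⟨_, rfl⟩
    have hXL : X = d * L := by rw [hL]; field_simp
    rw [← hd, ← hL]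
    have hfin := points_finite S α β G κ c (Real.exp L)
    have hinj : Function.Injective (fun p : K × K =>
        (Pool.Agent.N170.KG.pt p.1, Pool.Agent.N170.KG.pt p.2)) := by
      intro p p' e
      exact Prod.ext (Pool.Agent.N170.KG.pt_inj (congrArg Prod.fst e))
        (Pool.Agent.N170.KG.pt_inj (congrArg Prod.snd e))
    have hsub : ((F.image fun p : K × K =>
        (Pool.Agent.N170.KG.pt p.1, Pool.Agent.N170.KG.pt p.2) : Finset _) : Set _) ⊆
        Points S α β G κ c (Real.exp L) ∪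
          {p : Projectivization K (Fin 2 → K) × Projectivization K (Fin 2 → K) |
            Height.logHeight p.1.rep ≤ X ∧ Height.logHeight p.2.rep ≤ X ∧
              ev4 G p.1 p.2 = 0} := by
      intro P hP
      obtain ⟨p, hp, rfl⟩ := Finset.mem_image.1 (Finset.mem_coe.1 hP)
      obtain ⟨o1, o2, k1, k2, P, Q, hPP, hQQ, htr⟩ := hF p hp
      obtain ⟨n1, e1⟩ := Pool.Agent.N170.KG.pt_rep p.1
      obtain ⟨n2, e2⟩ := Pool.Agent.N170.KG.pt_rep p.2
      have l1 : Height.logHeight (Pool.Agent.N170.KG.pt p.1).rep = hr (aff p.1) := by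
        rw [ht_rep, e1]
      have l2 : Height.logHeight (Pool.Agent.N170.KG.pt p.2).rep = hr (aff p.2) := by
        rw [ht_rep, e2]
      have f1 : Off1 α (Pool.Agent.N170.KG.pt p.1) :=
        Pool.Agent.N170.KG.off_of n1 (by rw [e1]; exact o1)
      have f2 : Off1 β (Pool.Agent.N170.KG.pt p.2) :=
        Pool.Agent.N170.KG.off_of n2 (by rw [e2]; exact o2)
      by_cases hg : ev4 G (Pool.Agent.N170.KG.pt p.1) (Pool.Agent.N170.KG.pt p.2) = 0
      · exact Or.inr ⟨by rw [l1]; exact k1, by rw [l2]; exact k2, hg⟩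
      · refine Or.inl ⟨f1, f2, hg, exp_hh.2 (by rw [l1, ← hd, ← hXL]; exact k1),
          exp_hh.2 (by rw [l2, ← hd, ← hXL]; exact k2), ?_⟩
        have h5 := (cntT_bounds hTS hα0 hβ0 n1 n2 f1 f2 (by rw [e1]; exact hPP)
          (by rw [e2]; exact hQQ)).2
        rw [← hd, ← truncated_eq] at h5
        have h6 : d * truncated S α β (Pool.Agent.N170.KG.pt p.1) (Pool.Agent.N170.KG.pt p.2) ≤
            d * (((q : ℝ) - κ) * height (Pool.Agent.N170.KG.pt p.1) +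
              ((r : ℝ) - κ) * height (Pool.Agent.N170.KG.pt p.2) + c) := by
          unfold height
          rw [l1, l2, ← hd]
          have e3 : d * (((q : ℝ) - κ) * (hr (aff p.1) / d) +
              ((r : ℝ) - κ) * (hr (aff p.2) / d) + c) =
              ((q : ℝ) - κ) * hr (aff p.1) + ((r : ℝ) - κ) * hr (aff p.2) + d * c := by
            field_simp
          rw [e3]
          have := mul_le_mul_of_nonneg_left (neg_abs_le c) hd0.le
          linarith
        exact le_of_mul_le_mul_left h6 hd0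
    have h5 := Set.ncard_le_ncard hsub (hfin.union hZf)
    have h6 := Set.ncard_union_le (Points S α β G κ c (Real.exp L))
      {p : Projectivization K (Fin 2 → K) × Projectivization K (Fin 2 → K) |
            Height.logHeight p.1.rep ≤ X ∧ Height.logHeight p.2.rep ≤ X ∧ ev4 G p.1 p.2 = 0}
    rw [Set.ncard_coe_finset, Finset.card_image_of_injective _ hinj] at h5
    have h7 : (F.card : ℝ) ≤ ((Points S α β G κ c (Real.exp L)).ncard : ℝ) +
      ({p : Projectivization K (Fin 2 → K) × Projectivization K (Fin 2 → K) |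
            Height.logHeight p.1.rep ≤ X ∧ Height.logHeight p.2.rep ≤ X ∧
              ev4 G p.1 p.2 = 0}.ncard : ℝ) := by exact_mod_cast h5.trans h6
    linarith
  have hev := ratio3 (a := 4 - 2 * κ) (C := C') (η := η) (c := C)
    (W := Wg (cst 2 (q * r)) (2 * κ) (2 / 3))
    (M := fun X => ((Atypical S α β G κ c ε (Real.exp (X / Module.finrank ℚ K))).ncard : ℝ))
    (N := fun X => ((Points S α β G κ c (Real.exp (X / Module.finrank ℚ K))).ncard : ℝ))
    hη hη1 (hC' (1 / 2) (by norm_num) (by norm_num)).1 (by linarith) hC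
    (Wg_tendsto hcst hk hρ) hM (fun ε₂ h1 h2 => (hC' ε₂ h1 h2).2)
  refine ⟨η / 2 * (cst 2 (q * r) * (2 * κ) ^ ((2 : ℝ) / 3)), by positivity, ?_⟩
  rw [← hd] at hev
  have ht : Tendsto (fun B : ℝ => d * Real.log B) atTop atTop :=
    Real.tendsto_log_atTop.const_mul_atTop hd0
  filter_upwards [ht.eventually hev, eventually_gt_atTop (0 : ℝ),
    Real.tendsto_log_atTop.eventually (Wg_mono hcst hk hρ hd1)] with B hB hB0 hm
  rw [mul_div_cancel_left₀ _ hd0.ne', Real.exp_log hB0] at hB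
  refine hB.trans ?_
  apply mul_le_mul_of_nonneg_right _ (Nat.cast_nonneg _)
  apply Real.exp_le_exp.2
  have := mul_le_mul_of_nonneg_left hm (show 0 ≤ η / 2 by positivity)
  linarith

end Pool.Agent.Results.MP_9ec3f0_nt.DefectAtTheNodes
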