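import Mathlib
import Pool.Agent.U168.VJ.NF

set_option autoImplicit false

/-!
# Vojta's conjecture with truncated counting function: a lower bound for the error term

`X = ℙ^n`, `n ≥ 1`, over any number field `K`, `D` any divisor which contains `n + 2` hyperplanes in
general position, `S` any set of primes: the term `ε h(P)` cannot be replaced by
`κ h(P) ^ (n / (n + 1)) / log h(P)` with an explicit constant `κ`, outside any proper Zariski closed
subset.
-/

namespace Pool.Agent.Results.MP_9ec3f0_nt.ErrorTermLowerBound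

open NumberField IsDedekindDomain

variable {K : Type} [Field K] [NumberField K] {n : ℕ}

/-- The linear form with coefficients `l`. -/
noncomputable def linearForm {K : Type} [Field K] {n : ℕ} (l : Fin (n + 1) → K) :
    MvPolynomial (Fin (n + 1)) K :=
  ∑ j, MvPolynomial.C (l j) * MvPolynomial.X j

/-- The local height at the prime `v` of the point with homogeneous coordinates `x`, relative to
the divisor `F = 0`, where `F` is a form of degree `d` (with respect to the closure of this divisor
in the projective space over the local ring of `v`). -/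
noncomputable def weil (v : HeightOneSpectrum (𝓞 K)) (F : MvPolynomial (Fin (n + 1)) K) (d : ℕ)
    (x : Fin (n + 1) → K) : ℝ :=
  Real.log ((⨆ m, FinitePlace.mk v (F.coeff m)) * (⨆ j, FinitePlace.mk v (x j)) ^ d /
    FinitePlace.mk v (MvPolynomial.eval x F))

/-- The truncated counting function `N_S^{(1)}(D, P)` of the divisor `D = {F = 0}` at the point
with homogeneous coordinates `x`: the sum of `log N(v)` over the primes `v` outside `S` at which the
local height is positive. -/
noncomputable def truncated (S : Set (HeightOneSpectrum (𝓞 K)))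
    (F : MvPolynomial (Fin (n + 1)) K) (d : ℕ) (x : Fin (n + 1) → K) : ℝ :=
  ∑ᶠ v ∈ {v : HeightOneSpectrum (𝓞 K) | v ∉ S ∧ 0 < weil v F d x},
    Real.log (Ideal.absNorm v.asIdeal : ℝ)

/-- The constant `(n + 1)² n ^ (-(2 n + 1) / (n + 1)) 1.71 ^ (2 n / (n + 1))`; it is `6.84` for
`n = 1`. -/
noncomputable def constant (n : ℕ) : ℝ :=
  ((n : ℝ) + 1) ^ 2 / (n : ℝ) ^ ((2 * (n : ℝ) + 1) / (n + 1)) * 1.71 ^ (2 * (n : ℝ) / (n + 1))

/-- **A lower bound for the error term.** Let `n ≥ 1` and let `D = {F = 0}` be any divisor of degree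
`d` of `ℙ^n` over a number field `K` which contains `n + 2` hyperplanes in general position, so that
`h_{K_X + D} = (d - n - 1) h` (heights relative to `K`). Let `S` be any set of primes of `K`, `Z` any
proper Zariski closed subset of `ℙ^n` (contained in the zero set of the nonzero form `G`, with
coefficients in some extension of `K`) and
`κ < constant n * [K : ℚ] ^ (1 / (n + 1))`. Then there are points `P ∈ ℙ^n(K)` off `D` and off `Z`,
with `h(P)` as large as one likes, such that
`h_{K_X + D}(P) ≥ N_S^{(1)}(D, P) + κ h(P) ^ (n / (n + 1)) / log h(P)`. -/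
theorem result (K : Type) [Field K] [NumberField K] (S : Set (HeightOneSpectrum (𝓞 K))) (n : ℕ)
    (hn : 1 ≤ n) (L : Fin (n + 2) → Fin (n + 1) → K)
    (hL : ∀ I : Finset (Fin (n + 2)), I.card = n + 1 → LinearIndependent K (fun i : I => L i))
    (F : MvPolynomial (Fin (n + 1)) K) (d : ℕ) (hF : F ≠ 0) (hFd : F.IsHomogeneous d)
    (hLF : (∏ i, linearForm (L i)) ∣ F)
    (Ω : Type) [Field Ω] [Algebra K Ω] (G : MvPolynomial (Fin (n + 1)) Ω) (δ : ℕ) (hG : G ≠ 0)
    (hGδ : G.IsHomogeneous δ)
    (κ : ℝ) (hκ : κ < constant n * (Module.finrank ℚ K : ℝ) ^ (1 / ((n : ℝ) + 1))) (B : ℝ) :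
    ∃ x : Fin (n + 1) → K, MvPolynomial.eval x F ≠ 0 ∧
      MvPolynomial.eval (fun j => algebraMap K Ω (x j)) G ≠ 0 ∧ B ≤ Height.logHeight x ∧
      truncated S F d x +
          κ * Height.logHeight x ^ ((n : ℝ) / (n + 1)) / Real.log (Height.logHeight x) ≤
        ((d : ℝ) - n - 1) * Height.logHeight x := by
  classical
  have hfin : ((Height.totalWeight K : ℕ) : ℝ) = (Module.finrank ℚ K : ℝ) := by
    rw [← Pool.Agent.W231.V.sum_mult]
    exact_mod_cast InfinitePlace.sum_mult_eq
  have hexp : (1 : ℝ) - (n : ℝ) / (n + 1) = 1 / ((n : ℝ) + 1) := by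
    have : (n : ℝ) + 1 ≠ 0 := by positivity
    field_simp
    ring
  obtain ⟨x, hFx, hGx, hB, hbad, hsum⟩ := Pool.Agent.U168.VJ.main hn L hL F hF hFd hLF G hG hGδ
    (κ := κ) (by
      rw [hexp, hfin]
      exact hκ) B
  refine ⟨x, hFx, hGx, hB, ?_⟩
  have hsub : ∀ v : HeightOneSpectrum (𝓞 K), 0 < weil v F d x →
      Pool.Agent.W231.H.Bad v F d x := by
    intro v hv
    by_contra hcon
    unfold Pool.Agent.W231.H.Bad at hcon
    push Not at hcon
    refine absurd hv (not_lt.2 ?_)
    have h0 : 0 < FinitePlace.mk v (MvPolynomial.eval x F) := FinitePlace.pos_iff.2 hFx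
    refine Real.log_nonpos ?_ ?_
    · refine div_nonneg (mul_nonneg ?_ (pow_nonneg ?_ _)) h0.le
      · exact Real.iSup_nonneg fun j => apply_nonneg _ _
      · exact Real.iSup_nonneg fun j => apply_nonneg _ _
    · rw [div_le_one h0]
      exact hcon
  have hfin' : {v : HeightOneSpectrum (𝓞 K) | v ∉ S ∧ 0 < weil v F d x}.Finite :=
    hbad.subset fun v hv => hsub v hv.2
  have htr : truncated S F d x = ∑ v ∈ hfin'.toFinset, Pool.Agent.W231.V.ell v := by
    unfold truncated
    rw [finsum_mem_eq_finite_toFinset_sum _ hfin']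
    rfl
  rw [htr]
  exact hsum hfin'.toFinset fun v hv => hsub v (hfin'.mem_toFinset.1 hv).2

end Pool.Agent.Results.MP_9ec3f0_nt.ErrorTermLowerBound
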