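import Pool.Agent.U587.FD.OrbAll

/-!
# The truncated inequality for orbifold points over ALL extensions of ALL number fields, with absolute
# constants

Let `k` be a number field and `D = H_1 + … + H_q` a divisor of `q ≥ m + 1` hyperplanes in general
position in `ℙ^m` over `k`. All number fields `K ⊇ k`, of all degrees, are considered at once: the
constants depend only on the hyperplanes and on `θ`, `c`, `δ`. For a point `x ∈ ℙ^m(K)`, off `D`, we
consider all number fields `L ⊇ K`, all finite sets `T` of primes of `L`, all sets `J` of indices and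
all multiplicities `e_i ≥ 1` (`i ∉ J`) such that at all primes `w ∉ T` of `L` the intersection number of
`x` and `H_i` (`i ∉ J`) is zero or at least `e_i` (orbifold, or Campana, points over `L`; for `L = K` and
`J` the set of all indices it is no condition). We prove that for `0 ≤ θ < q` all but at most
`(C B ^ (e + δ)) ^ [K : ℚ]` of the points `x` of `ℙ^m(K)` of absolute height at most `log B` satisfy, for
all these `L`, `T`, `J`, `(e_i)`,

  `(θ - ∑_{i ∉ J} 1 / e_i) h(x) + ∑_{i ∉ J} m_T(H_i, x) / e_i ≤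
      N_{L,T}^{(1)}(D_J, x) + ∑_{w ∈ T} log N(w) / [L : ℚ] + d(L) - d(K) + c`,

where `D_J = ∑_{i ∈ J} H_i`, `N_{L,T}^{(1)}` is the truncated counting function over `L`, `m_T` the
proximity function and `d(L) = log |disc L| / [L : ℚ]`. The exponent `e = expo m q θ` is smaller than
`m + 1`, whereas there are at least `(B ^ (m + 1 - η) / (C δ_K ^ ((m + 3) / 2 + η))) ^ [K : ℚ]` points `x`
of height at most `log B` if `B ≥ C δ_K ^ 2`, `δ_K` the root discriminant. For `L = K` and all indices
in `J` this is the starting result `AllFieldsAllDegrees`. For `θ = q - m - 1 - ε` and `L = K` it is the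
inequality of the conjecture for the orbifold pair `(ℙ^m, D_J + ∑_{i ∉ J} (1 - 1 / e_i) H_i)`, and for
general `L` it is the one for the points above `x` on the coverings of `ℙ^m` which are étale outside `D`.
-/

set_option autoImplicit false

namespace Pool.Agent.Results.MP_9ec3f0_nt.OrbifoldAllFields

open NumberField IsDedekindDomain
open scoped LinearAlgebra.Projectivization

/-- The absolute logarithmic height of the point with homogeneous coordinates `x`. -/
noncomputable def height {L : Type} [Field L] [NumberField L] {m : ℕ} (x : Fin (m + 1) → L) : ℝ :=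
  Height.logHeight x / Module.finrank ℚ L

/-- The absolute logarithmic discriminant `log |disc L| / [L : ℚ]`. -/
noncomputable def logDisc (L : Type) [Field L] [NumberField L] : ℝ :=
  Real.log |(NumberField.discr L : ℝ)| / Module.finrank ℚ L

/-- `log N(w)`. -/
noncomputable def logNorm {L : Type} [Field L] [NumberField L] (w : HeightOneSpectrum (𝓞 L)) : ℝ :=
  Real.log (Ideal.absNorm w.asIdeal)

/-- The local height `log (max_j |b_j| max_j |x_j| / |∑ b_j x_j|)` of the hyperplane `∑ b_j x_j = 0`
at the point `x`, for an absolute value. -/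
noncomputable def localHeight {L : Type} [Field L] {m : ℕ} (f : AbsoluteValue L ℝ)
    (b x : Fin (m + 1) → L) : ℝ :=
  Real.log ((⨆ j, f (b j)) * (⨆ j, f (x j)) / f (∑ j, b j * x j))

/-- The local height at a prime `w` of `L` (with the absolute value `N(w) ^ (- ord_w)`, so that it is
`log N(w)` times the intersection number). -/
noncomputable def primeHeight {L : Type} [Field L] [NumberField L] {m : ℕ}
    (w : HeightOneSpectrum (𝓞 L)) (b x : Fin (m + 1) → L) : ℝ :=
  localHeight (FinitePlace.mk w).1 b x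

/-- The proximity function `m_T` of the hyperplane `b`: the sum of the local heights over the infinite
places `w` of `L` (with the factor `[L_w : ℝ]`) and the primes in `T`, divided by `[L : ℚ]`. -/
noncomputable def proximity {L : Type} [Field L] [NumberField L] {m : ℕ}
    (T : Finset (HeightOneSpectrum (𝓞 L))) (b x : Fin (m + 1) → L) : ℝ :=
  (∑ w : InfinitePlace L, (w.mult : ℝ) * localHeight w.1 b x + ∑ w ∈ T, primeHeight w b x) /
    Module.finrank ℚ L

open Classical in
/-- The truncated counting function over `L` of the hyperplanes `b_i`, `i ∈ J`: the sum of `log N(w)`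
over the primes `w ∉ T` of `L` at which the local height of some `b_i`, `i ∈ J`, is positive,
divided by `[L : ℚ]`. -/
noncomputable def truncated {L : Type} [Field L] [NumberField L] {m q : ℕ}
    (T : Finset (HeightOneSpectrum (𝓞 L))) (J : Finset (Fin q)) (b : Fin q → Fin (m + 1) → L)
    (x : Fin (m + 1) → L) : ℝ :=
  (∑ᶠ w : HeightOneSpectrum (𝓞 L),
    if w ∉ T ∧ ∃ i ∈ J, 0 < primeHeight w (b i) x then logNorm w else 0) / Module.finrank ℚ L

/-- A vector over `K`, in the extension `L` of `K`. -/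
def ovr {K : Type} [Field K] (L : Type) [Field L] [Algebra K L] {m : ℕ} (b : Fin (m + 1) → K) :
    Fin (m + 1) → L := fun j => algebraMap K L (b j)

/-- There are a number field `L` containing `K`, a finite set `T` of primes of `L`, a set `J` of
indices and `e_i ≥ 1` for `i ∉ J` such that the intersection numbers of `x` and the hyperplane
`b_i`, `i ∉ J`, at the primes `w ∉ T` of `L` are zero or at least `e_i`, which violate
`(θ - ∑_{i ∉ J} 1 / e_i) h(x) + ∑_{i ∉ J} m_T(H_i, x) / e_i ≤
N_{L,T}^{(1)}(D_J, x) + ∑_{w ∈ T} log N(w) / [L : ℚ] + d(L) - d(K) + c`. -/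
def Violates {K : Type} [Field K] [NumberField K] {m q : ℕ} (θ c : ℝ) (b : Fin q → Fin (m + 1) → K)
    (x : Fin (m + 1) → K) : Prop :=
  ∃ (L : Type) (_ : Field L) (_ : NumberField L) (_ : Algebra K L)
    (T : Finset (HeightOneSpectrum (𝓞 L))) (J : Finset (Fin q)) (e : Fin q → ℕ),
    (∀ i ∉ J, 1 ≤ e i) ∧
    (∀ w ∉ T, ∀ i ∉ J, 0 < primeHeight w (ovr L (b i)) (ovr L x) →
      e i * logNorm w ≤ primeHeight w (ovr L (b i)) (ovr L x)) ∧
    truncated T J (fun i => ovr L (b i)) (ovr L x) +
      (∑ w ∈ T, logNorm w) / Module.finrank ℚ L + (logDisc L - logDisc K) + c <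
    (θ - ∑ i ∈ Jᶜ, 1 / (e i : ℝ)) * height (ovr L x) +
      ∑ i ∈ Jᶜ, 1 / (e i : ℝ) * proximity T (ovr L (b i)) (ovr L x)

/-- The root discriminant `|disc K| ^ (1 / [K : ℚ])`. -/
noncomputable def rootDisc (K : Type) [Field K] [NumberField K] : ℝ :=
  |(NumberField.discr K : ℝ)| ^ (1 / (Module.finrank ℚ K : ℝ))

/-- The exponent. -/
noncomputable def expo (m q : ℕ) (θ : ℝ) : ℝ :=
  min (θ * (1 - ((q - m).choose (m + 1) : ℝ) / (q.choose (m + 1) : ℝ)))
    (((m : ℝ) + 1) * (1 - (m : ℝ) * ((q : ℝ) - θ) / ((q : ℝ) * ((q : ℝ) - 1))))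

/-- The `K`-points of `ℙ^m` off the hyperplanes, of absolute height at most `log B` (`P.rep` are the
chosen homogeneous coordinates of `P`). -/
def Points {k : Type} [Field k] (K : Type) [Field K] [NumberField K] [Algebra k K] {m q : ℕ}
    (a : Fin q → Fin (m + 1) → k) (B : ℝ) : Set (ℙ K (Fin (m + 1) → K)) :=
  {P | (∀ i, ∑ j, ovr K (a i) j * P.rep j ≠ 0) ∧ height P.rep ≤ Real.log B}

/-- The points of `Points K a B` for which the inequality is violated for some `L`, `T`, `J`, `e`. -/
def Exceptions {k : Type} [Field k] (K : Type) [Field K] [NumberField K] [Algebra k K] {m q : ℕ}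
    (a : Fin q → Fin (m + 1) → k) (θ c B : ℝ) : Set (ℙ K (Fin (m + 1) → K)) :=
  {P | P ∈ Points K a B ∧ Violates θ c (fun i => ovr K (a i)) P.rep}

lemma height_eq {K : Type} [Field K] [NumberField K] {m : ℕ} (Q : ℙ K (Fin (m + 1) → K)) :
    AllFieldsAllDegrees.height Q = height Q.rep := by
  unfold AllFieldsAllDegrees.height height
  rw [Height.logHeight_eq_log_mulHeight]
  congr 2
  conv_lhs => rw [← Q.mk_rep]
  exact Projectivization.mulHeight_mk _

lemma pts_eq {k : Type} [Field k] (K : Type) [Field K] [NumberField K] [Algebra k K] {m q : ℕ}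
    (a : Fin q → Fin (m + 1) → k) (B : ℝ) : Points K a B = AllFieldsAllDegrees.Pts K a B := by
  ext P
  constructor
  · rintro ⟨h1, h2⟩
    refine ⟨h1, ?_⟩
    rw [height_eq]
    exact h2
  · rintro ⟨h1, h2⟩
    refine ⟨h1, ?_⟩
    rw [← height_eq]
    exact h2

/-- **The truncated inequality for orbifold points over all extensions of all number fields.** Let `k`
be a number field, `H_1, …, H_q` hyperplanes in general position in `ℙ^m` over `k`, `m ≥ 1`,
`q ≥ m + 1`. For all `0 ≤ θ < q`, `c` and `δ > 0` the exponent `expo m q θ` is smaller than `m + 1`, and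
there is `C > 0` such that for ALL number fields `K ⊇ k` and all `B ≥ 1` all but at most
`(C B ^ (expo m q θ + δ)) ^ [K : ℚ]` of the points `x` of `ℙ^m(K)` off the hyperplanes, of absolute
height at most `log B`, satisfy
`(θ - ∑_{i ∉ J} 1 / e_i) h(x) + ∑_{i ∉ J} m_T(H_i, x) / e_i ≤
N_{L,T}^{(1)}(D_J, x) + ∑_{w ∈ T} log N(w) / [L : ℚ] + d(L) - d(K) + c`
for ALL number fields `L ⊇ K`, ALL finite sets `T` of primes of `L`, ALL sets `J` of indices and ALL
`e_i ≥ 1`, `i ∉ J`, such that the intersection numbers of `x` and `H_i`, `i ∉ J`, at the primes `w ∉ T`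
of `L` are zero or at least `e_i`. And for `η > 0` there is `C > 0` such that for all `K` and
`B ≥ C δ_K ^ 2`, `δ_K = rootDisc K`, there are at least
`(B ^ (m + 1 - η) δ_K ^ (-((m + 3) / 2 + η)) / C) ^ [K : ℚ]` points `x`. -/
theorem result (k : Type) [Field k] [NumberField k] (m q : ℕ) (hm : 1 ≤ m) (hq : m + 1 ≤ q)
    (a : Fin q → Fin (m + 1) → k)
    (ha : ∀ I : Finset (Fin q), I.card = m + 1 → LinearIndependent k (fun i : I => a i)) :
    (∀ θ c δ : ℝ, 0 ≤ θ → θ < q → 0 < δ → expo m q θ < m + 1 ∧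
      ∃ C : ℝ, 0 < C ∧ ∀ (K : Type) [Field K] [NumberField K] [Algebra k K] (B : ℝ), 1 ≤ B →
        (Points K a B).Finite ∧
        ((Exceptions K a θ c B).ncard : ℝ) ≤ (C * B ^ (expo m q θ + δ)) ^ Module.finrank ℚ K) ∧
    (∀ η : ℝ, 0 < η → ∃ C : ℝ, 0 < C ∧
      ∀ (K : Type) [Field K] [NumberField K] [Algebra k K] (B : ℝ), C * rootDisc K ^ 2 ≤ B →
        (C⁻¹ * B ^ ((m : ℝ) + 1 - η) * rootDisc K ^ (-(((m : ℝ) + 3) / 2 + η))) ^
          Module.finrank ℚ K ≤ ((Points K a B).ncard : ℝ)) := by
  obtain ⟨H1, H2⟩ := AllFieldsAllDegrees.result k m q hm hq a ha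
  refine ⟨?_, ?_⟩
  · intro θ c δ hθ hθq hδ
    obtain ⟨c', hc'⟩ := Pool.Agent.U587.FD.orbCore2 k hq a ha θ c
    obtain ⟨he, C, hC, h⟩ := H1 θ c' δ hθ hθq hδ
    refine ⟨he, C, hC, ?_⟩
    intro K _ _ _ B hB
    obtain ⟨h1, h2⟩ := h K B hB
    rw [pts_eq]
    refine ⟨h1, ?_⟩
    have hsub : Exceptions K a θ c B ⊆ AllFieldsAllDegrees.Exc K a θ c' B := by
      rintro P ⟨hP, hv⟩
      rw [pts_eq] at hP
      exact ⟨hP, hc' K P hP.1 hv⟩
    have hfin : (AllFieldsAllDegrees.Exc K a θ c' B).Finite := h1.subset fun P hP => hP.1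
    refine le_trans ?_ h2
    exact_mod_cast Set.ncard_le_ncard hsub hfin
  · intro η hη
    obtain ⟨C, hC, h⟩ := H2 η hη
    refine ⟨C, hC, ?_⟩
    intro K _ _ _ B hB
    rw [pts_eq]
    exact h K B hB

end Pool.Agent.Results.MP_9ec3f0_nt.OrbifoldAllFields
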