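import Mathlib
import Pool.Agent.U583.TV.Mult

/-!
# A weak truncated inequality for rational points on the closed subvarieties of tori

Let `X` be a closed subvariety of the torus of dimension `n` over `ℚ` which is not invariant under a subtorus of positive
dimension (for irreducible `X` this means that `X` is of logarithmic general type), `D` the boundary, `S` a finite set of
primes, `h` the height and `N_S^(1)` the truncated counting function, both with respect to `(P^1)^n`. Vojta's conjecture implies that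
`h(x) ≤ A (N_S^(1)(D, x) + 1)` for all rational points `x` of `X` outside of a proper closed subset.

We prove this for the points `x` which meet the boundary with few different multiplicities, up to few proper closed subsets:
for all `N`, `k` and `ε > 0` there are `A` and `δ > 0` such that for every `Z ≥ 2` there are at most `A Z ^ ε` hypersurfaces
`G = 0`, not containing `X`, such that `h(x) ≤ A (N_S^(1)(D, x) + 1)` for all rational points `x` of `X` outside of these
hypersurfaces for which `N_S^(1)(D, x) ≤ log Z`, the vectors of the valuations of the coordinates of `x` at the primes outside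
of `S` take, up to differences `≤ k`, at most `N` values (the number of the primes is arbitrary), and
`h(x) ≤ exp (δ N_S^(1)(D, x))`. The same is true for the points whose coordinates are products of powers of `N` integers
`≤ exp (k (N_S^(1) + 1))`.

The result is uniform in `X`: for all `X` with `h(X) ≤ E exp (δ N_S^(1)(D, x))` we have
`h(x) ≤ A (N_S^(1)(D, x) + h(X) + 1)`, where `A` and `δ` depend only on the monomials in the equations of `X`, their number, `S`,
`N`, `E` and `ε`.

Proof. Scaled to integers, the terms of the equations at `x` are sums without vanishing subsums of products of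
powers of boundedly many integers. A theorem of the library (`Y902.GN.gq`: ultraproduct, `p`-adic determinant method) gives few
points `z` such that each `x` is small up to one of them, or on a part of an equation (`Reps`, `Stab`). Let `T` be the set of the small
points `x / z`. If some polynomial is zero on `T`, but not on `X / z`, we have a new equation. Otherwise the vectors of minimal
support in the space of the equations of `X / z` are unique solutions of linear equations with small coefficients, so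
`z` is small, as `X` has a finite stabilizer (`Cls`).
-/

set_option autoImplicit false

namespace Pool.Agent.Results.MP_9ec3f0_nt.WeakTruncated

open Pool.Agent.U583.TV

/-- the points: up to differences at most `D`, the vector of the valuations of the coordinates takes at most `N` values at
the primes outside of `S` where `x` meets the boundary, and the height is at most `exp (δ N1)`; or the coordinates are
products of powers of `N` integers `≤ exp (D (N1 + 1))` with exponents at most `exp (δ N1)` -/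
def Pts {n : ℕ} (S : Finset ℕ) (N D : ℕ) (δ : ℝ) (x : Fin n → ℚ) : Prop :=
  (FewMult S N D x ∧ ht x ≤ Real.exp (δ * N1 S x)) ∨ Gens S N D δ x

/-- for each `Z ≥ 2` there are at most `A Z ^ ε` hypersurfaces `G = 0` which do not contain `X_c` such that
`ht x ≤ A (N1 + B)` for all the points `x` of `X_c` with the property `P` and `N1 ≤ log Z` outside of them -/
def Off {κ : Type} [Fintype κ] {n r : ℕ} (m : κ → Fin n → ℕ) (S : Finset ℕ) (ε A B : ℝ)
    (c : Fin r → κ → ℤ) (P : (Fin n → ℚ) → Prop) : Prop :=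
  ∀ Z : ℕ, 2 ≤ Z → ∃ 𝒢 : Finset (κ → ℚ), (𝒢.card : ℝ) ≤ A * (Z : ℝ) ^ ε ∧
    (∀ G ∈ 𝒢, ∃ y ∈ Zer ℂ m c, ev m G y ≠ 0) ∧
    ∀ x ∈ Zer ℚ m c, P x → N1 S x ≤ Real.log Z →
      ht x ≤ A * (N1 S x + B) ∨ ∃ G ∈ 𝒢, ev m G x = 0

theorem uniform {κ : Type} [Fintype κ] {n : ℕ} (m : κ → Fin n → ℕ) (S : Finset ℕ) (ε : ℝ)
    (hε : 0 < ε) (r N D E : ℕ) : ∃ A δ : ℝ, 0 ≤ A ∧ 0 < δ ∧ ∀ c : Fin r → κ → ℤ, Full m c →
      FinStab m c → Off m S ε A (hc c + 1) c fun x =>
        hc c ≤ E * Real.exp (δ * N1 S x) ∧ Pts S N D δ x := by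
  classical
  obtain ⟨A1, δ1, hδ1, H1⟩ := weak_gens m S r N D E ε hε
  obtain ⟨A2, δ2, hδ2, H2⟩ := weak_mult m S r N D E ε hε
  have hA1 := le_abs_self A1
  have hA2 := le_abs_self A2
  have hA1' := abs_nonneg A1
  have hA2' := abs_nonneg A2
  refine ⟨|A1| + |A2|, min δ1 δ2, by positivity, lt_min hδ1 hδ2, fun c hF hst Z hZ => ?_⟩
  obtain ⟨𝒢1, a1, a2, a3⟩ := H1 c hF hst Z hZ
  obtain ⟨𝒢2, b1, b2, b3⟩ := H2 c hF hst Z hZ
  have hZp : (0 : ℝ) ≤ (Z : ℝ) ^ ε := by positivity
  refine ⟨𝒢1 ∪ 𝒢2, ?_, fun G hG => ?_, ?_⟩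
  · have h1 : ((𝒢1 ∪ 𝒢2).card : ℝ) ≤ (𝒢1.card : ℝ) + 𝒢2.card := by
      exact_mod_cast Finset.card_union_le _ _
    have h2 : A1 * (Z : ℝ) ^ ε ≤ |A1| * (Z : ℝ) ^ ε := mul_le_mul_of_nonneg_right hA1 hZp
    have h3 : A2 * (Z : ℝ) ^ ε ≤ |A2| * (Z : ℝ) ^ ε := mul_le_mul_of_nonneg_right hA2 hZp
    linarith
  · rcases Finset.mem_union.1 hG with h | h
    · exact a2 G h
    · exact b2 G h
  · rintro x hx ⟨hcx, hP⟩ hZx
    have hN := N1_nonneg S x
    have hc0 := hc_nonneg c
    have e1 : Real.exp (min δ1 δ2 * N1 S x) ≤ Real.exp (δ1 * N1 S x) := Real.exp_le_exp.2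
      (mul_le_mul_of_nonneg_right (min_le_left _ _) hN)
    have e2 : Real.exp (min δ1 δ2 * N1 S x) ≤ Real.exp (δ2 * N1 S x) := Real.exp_le_exp.2
      (mul_le_mul_of_nonneg_right (min_le_right _ _) hN)
    rcases hP with ⟨h1, h2⟩ | ⟨η, b, e, g1, g2, g3, g4⟩
    · rcases b3 x hx hZx (hcx.trans (mul_le_mul_of_nonneg_left e2 (Nat.cast_nonneg E)))
        ⟨h1, h2.trans e2⟩ with h | ⟨G, hG, h⟩
      · refine Or.inl (h.trans ?_)
        rw [← add_assoc]
        exact mul_le_mul_of_nonneg_right (by linarith) (by linarith)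
      · exact Or.inr ⟨G, Finset.mem_union_right _ hG, h⟩
    · rcases a3 x hx hZx (hcx.trans (mul_le_mul_of_nonneg_left e1 (Nat.cast_nonneg E)))
        ⟨η, b, e, g1, g2, fun i j => (g3 i j).trans e1, g4⟩ with h | ⟨G, hG, h⟩
      · refine Or.inl (h.trans ?_)
        rw [← add_assoc]
        exact mul_le_mul_of_nonneg_right (by linarith) (by linarith)
      · exact Or.inr ⟨G, Finset.mem_union_left _ hG, h⟩

theorem ev_cast {κ : Type} [Fintype κ] {n : ℕ} (m : κ → Fin n → ℕ) (G : κ → ℚ) (x : Fin n → ℚ) :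
    ev m G (fun i => (x i : ℂ)) = ((ev m G x : ℚ) : ℂ) := by
  unfold ev
  push_cast
  rfl

theorem zer_cast {κ : Type} [Fintype κ] {n r : ℕ} {m : κ → Fin n → ℕ} {c : Fin r → κ → ℤ}
    {x : Fin n → ℚ} : (fun i => (x i : ℂ)) ∈ Zer ℂ m c ↔ x ∈ Zer ℚ m c := by
  unfold Zer
  simp only [Set.mem_ofPred_eq, ev_cast]
  norm_cast

/-- all equations with the same monomials -/
theorem full_equations {κ : Type} [Fintype κ] {n r : ℕ} (m : κ → Fin n → ℕ)
    (c : Fin r → κ → ℤ) : ∃ (d : ℕ) (c' : Fin d → κ → ℤ), Full m c' ∧ Zer ℂ m c' = Zer ℂ m c := by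
  obtain ⟨I, hI⟩ : ∃ I : Submodule ℚ (κ → ℚ), ∀ G, G ∈ I ↔ ∀ y ∈ Zer ℂ m c, ev m G y = 0 := by
    refine ⟨⨅ y : Zer ℂ m c, LinearMap.ker (evL m y.1), fun G => ?_⟩
    rw [Submodule.mem_iInf]
    exact ⟨fun h y hy => h ⟨y, hy⟩, fun h y => h y.1 y.2⟩
  obtain ⟨f, hf1, hf2', -⟩ := Submodule.exists_fun_fin_finrank_span_eq ℚ (I : Set (κ → ℚ))
  have hf2 := hf2'.trans (Submodule.span_eq I)
  have hD := fun i => Pool.Agent.Y902.GN.clear_den (Finset.univ : Finset κ) (f i)
  choose D hD hz using hD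
  choose c' hc' using fun i k => hz i k (Finset.mem_univ k)
  have hsp : Sp c' = I := by
    refine le_antisymm (Submodule.span_le.2 ?_) ?_
    · rintro _ ⟨q, rfl⟩
      have h1 : (fun k => (c' q k : ℚ)) = (D q : ℚ) • f q := by
        funext k
        rw [hc' q k]
        rfl
      show (fun k => (c' q k : ℚ)) ∈ I
      rw [h1]
      exact I.smul_mem _ (hf1 q)
    · refine hf2.symm.le.trans (Submodule.span_le.2 ?_)
      rintro _ ⟨q, rfl⟩
      have hDq : (D q : ℚ) ≠ 0 := by exact_mod_cast (hD q).ne'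
      have h1 : f q = (D q : ℚ)⁻¹ • fun k => (c' q k : ℚ) := by
        funext k
        simp only [Pi.smul_apply, smul_eq_mul]
        rw [hc' q k]
        field_simp
      show f q ∈ Sp c'
      rw [h1]
      exact Submodule.smul_mem _ _ (Submodule.subset_span ⟨q, rfl⟩)
  have hZ : Zer ℂ m c' = Zer ℂ m c := by
    refine Set.Subset.antisymm (fun y hy => ⟨hy.1, fun q => ?_⟩) fun y hy => ⟨hy.1, fun q => ?_⟩
    · refine Zer.ev_eq hy ?_
      rw [hsp, hI]
      exact fun y hy => hy.2 q
    · have h1 : (fun k => (c' q k : ℚ)) ∈ I := by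
        rw [← hsp]
        exact Submodule.subset_span ⟨q, rfl⟩
      exact (hI _).1 h1 y hy
  refine ⟨_, c', fun G hG => ?_, hZ⟩
  rw [hsp, hI]
  rw [hZ] at hG
  exact hG

theorem fixed {κ : Type} [Fintype κ] {n : ℕ} (m : κ → Fin n → ℕ) (S : Finset ℕ) (ε : ℝ)
    (hε : 0 < ε) (r : ℕ) (c : Fin r → κ → ℤ) (hst : FinStab m c) (N D : ℕ) :
    ∃ A δ : ℝ, 0 < δ ∧ Off m S ε A 1 c (Pts S N D δ) := by
  obtain ⟨d, c', hF, hZ⟩ := full_equations m c
  have hst' : FinStab m c' := by
    unfold FinStab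
    rw [hZ]
    exact hst
  obtain ⟨A, δ, hA, hδ, H⟩ := uniform m S ε hε d N D ⌈hc c'⌉₊
  have hc0 := hc_nonneg c'
  have hA' : A ≤ A * (hc c' + 1) := le_mul_of_one_le_right hA (by linarith)
  refine ⟨A * (hc c' + 1), δ, hδ, fun Z hZ2 => ?_⟩
  obtain ⟨𝒢, h1, h2, h3⟩ := H c' hF hst' Z hZ2
  rw [hZ] at h2
  refine ⟨𝒢, h1.trans (mul_le_mul_of_nonneg_right hA' (by positivity)), h2,
    fun x hx hP hxZ => ?_⟩
  have hN := N1_nonneg S x
  have hcx : hc c' ≤ (⌈hc c'⌉₊ : ℝ) * Real.exp (δ * N1 S x) := (Nat.le_ceil _).trans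
    (le_mul_of_one_le_right (Nat.cast_nonneg _) (Real.one_le_exp (by positivity)))
  have hx' : x ∈ Zer ℚ m c' := by
    rw [← zer_cast, hZ, zer_cast]
    exact hx
  rcases h3 x hx' ⟨hcx, hP⟩ hxZ with h | h
  · refine Or.inl (h.trans ?_)
    rw [mul_assoc]
    refine mul_le_mul_of_nonneg_left ?_ hA
    nlinarith [mul_nonneg hc0 hN]
  · exact Or.inr h

/-- **A weak truncated inequality for the closed subvarieties of tori**, up to few proper closed subsets: (1) uniform in the
equations, (2) for all the points of a given subvariety. -/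
theorem result {κ : Type} [Fintype κ] {n : ℕ} (m : κ → Fin n → ℕ) (S : Finset ℕ) (ε : ℝ)
    (hε : 0 < ε) :
    (∀ r N D E : ℕ, ∃ A δ : ℝ, 0 ≤ A ∧ 0 < δ ∧ ∀ c : Fin r → κ → ℤ, Full m c → FinStab m c →
      Off m S ε A (hc c + 1) c fun x => hc c ≤ E * Real.exp (δ * N1 S x) ∧ Pts S N D δ x) ∧
    ∀ (r : ℕ) (c : Fin r → κ → ℤ), FinStab m c → ∀ N D : ℕ,
      ∃ A δ : ℝ, 0 < δ ∧ Off m S ε A 1 c (Pts S N D δ) :=
  ⟨uniform m S ε hε, fixed m S ε hε⟩

end Pool.Agent.Results.MP_9ec3f0_nt.WeakTruncated
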